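import Pool.Agent.H12.UCR.Stmts4

/-! Board ucr, row KAP. -/

set_option autoImplicit false

open MeasureTheory Filter Topology

namespace Pool.UCR

/-- the coefficients of a probability measure -/
noncomputable def kapc (μ : ProbabilityMeasure UnitAddCircle) (j : ℕ) : ℂ :=
  ∫ x, fourier (j : ℤ) x ∂(μ : Measure UnitAddCircle)

theorem kap_int (j : ℕ) (ν : Measure UnitAddCircle) [IsFiniteMeasure ν] :
    Integrable (fun x : UnitAddCircle => (fourier (j : ℤ) x : ℂ)) ν := by
  refine Integrable.of_bound (map_continuous _).aestronglyMeasurable 1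
    (Eventually.of_forall fun x => ?_)
  exact le_of_eq (by rw [fourier_apply]; exact Circle.norm_coe _)

theorem kap_four (j : ℕ) (t : ℝ) : (fourier (j : ℤ) (t : UnitAddCircle) : ℂ) =
    Complex.exp (2 * Real.pi * Complex.I * ((j * t : ℝ) : ℂ)) := by
  rw [fourier_coe_apply]
  congr 1
  push_cast
  simp
  ring

theorem kap_step (μ : ProbabilityMeasure UnitAddCircle) (s t : ℝ) (hs0 : 0 ≤ s) (hs1 : s ≤ 1) :
    ∃ ν : ProbabilityMeasure UnitAddCircle, ∀ j, kapc ν j = kapc μ j * ph s (j * t) := by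
  set m : Measure UnitAddCircle := (μ : Measure UnitAddCircle) with hm
  have hmp : IsProbabilityMeasure m := inferInstance
  have hc : Continuous fun x : UnitAddCircle => x + (t : UnitAddCircle) := by fun_prop
  have hmt : IsProbabilityMeasure (m.map fun x : UnitAddCircle => x + (t : UnitAddCircle)) :=
    Measure.isProbabilityMeasure_map hc.measurable.aemeasurable
  set n : Measure UnitAddCircle := ENNReal.ofReal (1 - s) • m +
    ENNReal.ofReal s • m.map (fun x : UnitAddCircle => x + (t : UnitAddCircle)) with hn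
  have hnp : IsProbabilityMeasure n := by
    constructor
    rw [hn, Measure.add_apply, Measure.smul_apply, Measure.smul_apply, measure_univ, measure_univ,
      smul_eq_mul, smul_eq_mul, mul_one, mul_one, ← ENNReal.ofReal_add (by linarith) hs0,
      sub_add_cancel, ENNReal.ofReal_one]
  refine ⟨⟨n, hnp⟩, fun j => ?_⟩
  show ∫ x, fourier (j : ℤ) x ∂n = (∫ x, fourier (j : ℤ) x ∂m) * ph s (j * t)
  rw [hn, integral_add_measure ((kap_int j m).smul_measure ENNReal.ofReal_ne_top)
    ((kap_int j (m.map _)).smul_measure ENNReal.ofReal_ne_top), integral_smul_measure,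
    integral_smul_measure, ENNReal.toReal_ofReal (by linarith), ENNReal.toReal_ofReal hs0,
    integral_map hc.measurable.aemeasurable (map_continuous _).aestronglyMeasurable]
  have h1 : ∫ x, (fourier (j : ℤ) (x + (t : UnitAddCircle)) : ℂ) ∂m =
      (∫ x, fourier (j : ℤ) x ∂m) * fourier (j : ℤ) (t : UnitAddCircle) := by
    rw [← integral_mul_const]
    refine integral_congr_ae (Eventually.of_forall fun x => ?_)
    show (fourier (j : ℤ) (x + (t : UnitAddCircle)) : ℂ) = fourier (j : ℤ) x * fourier (j : ℤ) _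
    simp only [fourier_apply, smul_add, AddCircle.toCircle_add, Circle.coe_mul]
  rw [h1, kap_four, Complex.real_smul, Complex.real_smul]
  unfold ph
  push_cast
  ring

theorem kap_seq (p : ℕ) (s : ℝ) (hs0 : 0 ≤ s) (hs1 : s ≤ 1) :
    ∃ κ : ℕ → ProbabilityMeasure UnitAddCircle, ∀ n m : ℕ,
      kapc (κ n) m = ∏ i ∈ Finset.range n, ph s ((m : ℝ) / (p : ℝ) ^ (i + 1)) := by
  choose f hf using fun (μ : ProbabilityMeasure UnitAddCircle) (t : ℝ) => kap_step μ s t hs0 hs1
  let κ : ℕ → ProbabilityMeasure UnitAddCircle := fun n =>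
    Nat.rec ⟨Measure.dirac 0, inferInstance⟩ (fun n μ => f μ (1 / (p : ℝ) ^ (n + 1))) n
  refine ⟨κ, fun n => ?_⟩
  induction n with
  | zero =>
      intro m
      show ∫ x, fourier (m : ℤ) x ∂(Measure.dirac (0 : UnitAddCircle)) = _
      rw [integral_dirac, Finset.range_zero, Finset.prod_empty, fourier_apply, smul_zero]
      simp
  | succ n ih =>
      intro m
      have h1 : kapc (κ (n + 1)) m = kapc (κ n) m * ph s (m * (1 / (p : ℝ) ^ (n + 1))) :=
        hf (κ n) (1 / (p : ℝ) ^ (n + 1)) m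
      rw [h1, ih m, Finset.prod_range_succ, mul_one_div]

theorem kap_ph_le (s t : ℝ) (hs0 : 0 ≤ s) (hs1 : s ≤ 1) : ‖ph s t‖ ≤ 1 := by
  unfold ph
  have he : ‖Complex.exp (2 * Real.pi * Complex.I * t)‖ = 1 := by
    have : (2 * Real.pi * Complex.I * t : ℂ) = ((2 * Real.pi * t : ℝ) : ℂ) * Complex.I := by
      push_cast
      ring
    rw [this, Complex.norm_exp_ofReal_mul_I]
  have h1 : ‖((1 - s : ℝ) : ℂ)‖ = 1 - s := by
    rw [Complex.norm_real, Real.norm_eq_abs, abs_of_nonneg (by linarith)]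
  have h2 : ‖(s : ℂ)‖ = s := by
    rw [Complex.norm_real, Real.norm_eq_abs, abs_of_nonneg hs0]
  calc ‖(1 - s : ℂ) + s * Complex.exp (2 * Real.pi * Complex.I * t)‖
      ≤ ‖(1 - s : ℂ)‖ + ‖s * Complex.exp (2 * Real.pi * Complex.I * t)‖ := norm_add_le _ _
    _ = (1 - s) + s := by
        rw [norm_mul, he, h2, mul_one]
        congr 1
        rw [← h1]
        push_cast
        rfl
    _ = 1 := by ring

theorem kap_ph_sub (s t : ℝ) (hs0 : 0 ≤ s) : ‖ph s t - 1‖ ≤ 2 * Real.pi * s * |t| := by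
  have e : ph s t - 1 = s * (Complex.exp (Complex.I * ((2 * Real.pi * t : ℝ) : ℂ)) - 1) := by
    unfold ph
    have : (2 * Real.pi * Complex.I * t : ℂ) = Complex.I * ((2 * Real.pi * t : ℝ) : ℂ) := by
      push_cast
      ring
    rw [this]
    ring
  have h2 : ‖(s : ℂ)‖ = s := by
    rw [Complex.norm_real, Real.norm_eq_abs, abs_of_nonneg hs0]
  rw [e, norm_mul, h2]
  have h3 := Real.norm_exp_I_mul_ofReal_sub_one_le (x := 2 * Real.pi * t)
  have h4 : ‖(2 * Real.pi * t : ℝ)‖ = 2 * Real.pi * |t| := by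
    rw [Real.norm_eq_abs, abs_mul, abs_of_pos (by positivity)]
  rw [h4] at h3
  calc s * _ ≤ s * (2 * Real.pi * |t|) := mul_le_mul_of_nonneg_left h3 hs0
    _ = _ := by ring

theorem kap_ph_nat (s : ℝ) (m : ℕ) : ph s m = 1 := by
  unfold ph
  have : Complex.exp (2 * Real.pi * Complex.I * ((m : ℝ) : ℂ)) = 1 := by
    have h := Complex.exp_int_mul_two_pi_mul_I (m : ℤ)
    rw [← h]
    congr 1
    push_cast
    ring
  rw [this]
  ring

theorem kap_inv {p : ℕ} (hp : 2 ≤ p) (m i : ℕ) :
    0 ≤ (m : ℝ) / (p : ℝ) ^ (i + 1) ∧ (m : ℝ) / (p : ℝ) ^ (i + 1) ≤ m * (1 / 2) ^ (i + 1) := by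
  have hp' : (2 : ℝ) ≤ p := by exact_mod_cast hp
  refine ⟨by positivity, ?_⟩
  rw [div_eq_mul_inv, one_div, inv_pow]
  refine mul_le_mul_of_nonneg_left ?_ (Nat.cast_nonneg m)
  exact inv_anti₀ (by positivity) (pow_le_pow_left₀ (by norm_num) hp' _)

theorem kap_prod {p : ℕ} (hp : 2 ≤ p) (s : ℝ) (hs0 : 0 ≤ s) (hs1 : s ≤ 1) (m n : ℕ) :
    ‖(∏ i ∈ Finset.range n, ph s ((m : ℝ) / (p : ℝ) ^ (i + 1))) - 1‖ ≤
      2 * Real.pi * s * m * (1 - (1 / 2) ^ n) := by
  induction n with
  | zero => simp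
  | succ n ih =>
      rw [Finset.prod_range_succ]
      have e : (∏ i ∈ Finset.range n, ph s ((m : ℝ) / (p : ℝ) ^ (i + 1))) *
          ph s ((m : ℝ) / (p : ℝ) ^ (n + 1)) - 1 =
          ((∏ i ∈ Finset.range n, ph s ((m : ℝ) / (p : ℝ) ^ (i + 1))) - 1) *
            ph s ((m : ℝ) / (p : ℝ) ^ (n + 1)) + (ph s ((m : ℝ) / (p : ℝ) ^ (n + 1)) - 1) := by
        ring
      rw [e]
      obtain ⟨h0, h1⟩ := kap_inv hp m n
      have h2 : ‖ph s ((m : ℝ) / (p : ℝ) ^ (n + 1)) - 1‖ ≤
          2 * Real.pi * s * (m * (1 / 2) ^ (n + 1)) := by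
        refine (kap_ph_sub s _ hs0).trans ?_
        rw [abs_of_nonneg h0]
        exact mul_le_mul_of_nonneg_left h1 (by positivity)
      have h3 : ‖((∏ i ∈ Finset.range n, ph s ((m : ℝ) / (p : ℝ) ^ (i + 1))) - 1) *
            ph s ((m : ℝ) / (p : ℝ) ^ (n + 1))‖ ≤ 2 * Real.pi * s * m * (1 - (1 / 2) ^ n) := by
        rw [norm_mul]
        calc _ ≤ _ * 1 := mul_le_mul_of_nonneg_left (kap_ph_le s _ hs0 hs1) (norm_nonneg _)
          _ ≤ _ := by rw [mul_one]; exact ih
      refine (norm_add_le _ _).trans ((add_le_add h3 h2).trans (le_of_eq ?_))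
      rw [pow_succ]
      ring

theorem kap_thm (hI : INJS) : KAPS := by
  intro p s hp hs0 hs1
  obtain ⟨κn, hκ⟩ := kap_seq p s hs0 hs1
  let U : Ultrafilter ℕ := hyperfilter ℕ
  have hU : (U : Filter ℕ) ≤ atTop := Nat.hyperfilter_le_atTop
  obtain ⟨κ, -, hlim⟩ := isCompact_univ.ultrafilter_le_nhds
    (U.map κn) (by simp : (↑(U.map κn) : Filter (ProbabilityMeasure UnitAddCircle)) ≤ 𝓟 Set.univ)
  have ht : Tendsto κn U (𝓝 κ) := hlim
  have hc : ∀ m, Tendsto (fun n => kapc (κn n) m) U (𝓝 (kapc κ m)) := fun m =>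
    (ProbabilityMeasure.tendsto_iff_forall_integral_rclike_tendsto ℂ).1 ht
      (BoundedContinuousFunction.mkOfCompact (fourier (m : ℤ)))
  have hsub : ∀ m n, ‖kapc (κn n) (p * m) - kapc (κn n) m‖ ≤
      2 * Real.pi * s * (m * (1 / 2) ^ n) + 0 := by
    intro m n
    have hp0 : (p : ℝ) ≠ 0 := by
      have : (2 : ℝ) ≤ p := by exact_mod_cast hp
      positivity
    rcases n with _ | n
    · rw [hκ, hκ]
      simp only [Finset.range_zero, Finset.prod_empty, sub_self, norm_zero]
      positivity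
    · have h1 : kapc (κn (n + 1)) (p * m) = kapc (κn n) m := by
        rw [hκ, hκ, Finset.prod_range_succ']
        have h2 : ph s (((p * m : ℕ) : ℝ) / (p : ℝ) ^ (0 + 1)) = 1 := by
          rw [← kap_ph_nat s m]
          congr 1
          push_cast
          field_simp
        rw [h2, mul_one]
        refine Finset.prod_congr rfl fun i _ => ?_
        congr 1
        push_cast
        rw [pow_succ (p : ℝ) (i + 1)]
        field_simp
      have h2 : kapc (κn (n + 1)) m = kapc (κn n) m * ph s ((m : ℝ) / (p : ℝ) ^ (n + 1)) := by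
        rw [hκ, hκ, Finset.prod_range_succ]
      have h3 : kapc (κn (n + 1)) (p * m) - kapc (κn (n + 1)) m =
          -(kapc (κn n) m * (ph s ((m : ℝ) / (p : ℝ) ^ (n + 1)) - 1)) := by
        rw [h1, h2]
        ring
      have h4 : ‖kapc (κn n) m‖ ≤ 1 := by
        rw [hκ, norm_prod]
        exact Finset.prod_le_one (fun i _ => norm_nonneg _) fun i _ => kap_ph_le s _ hs0 hs1
      obtain ⟨h0, h5⟩ := kap_inv hp m n
      rw [h3, norm_neg, norm_mul, add_zero]
      calc _ ≤ 1 * ‖ph s ((m : ℝ) / (p : ℝ) ^ (n + 1)) - 1‖ :=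
            mul_le_mul_of_nonneg_right h4 (norm_nonneg _)
        _ ≤ 1 * (2 * Real.pi * s * |(m : ℝ) / (p : ℝ) ^ (n + 1)|) :=
            mul_le_mul_of_nonneg_left (kap_ph_sub s _ hs0) zero_le_one
        _ ≤ 2 * Real.pi * s * (m * (1 / 2) ^ (n + 1)) := by
            rw [one_mul, abs_of_nonneg h0]
            exact mul_le_mul_of_nonneg_left h5 (by positivity)
  have heq : ∀ m, kapc κ (p * m) = kapc κ m := by
    intro m
    have h1 : Tendsto (fun n => kapc (κn n) (p * m) - kapc (κn n) m) U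
        (𝓝 (kapc κ (p * m) - kapc κ m)) := (hc _).sub (hc _)
    have h2 : Tendsto (fun n => kapc (κn n) (p * m) - kapc (κn n) m) U (𝓝 0) := by
      refine Tendsto.mono_left ?_ hU
      refine squeeze_zero_norm (hsub m) ?_
      have h3 : Tendsto (fun n : ℕ => ((1 / 2 : ℝ)) ^ n) atTop (𝓝 0) :=
        tendsto_pow_atTop_nhds_zero_of_lt_one (by norm_num) (by norm_num)
      have h4 := (((h3.const_mul (m : ℝ)).const_mul (2 * Real.pi * s)).add_const (0 : ℝ))
      simpa using h4
    exact sub_eq_zero.1 (tendsto_nhds_unique h1 h2)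
  have hcont : Continuous fun x : UnitAddCircle => p • x := by fun_prop
  have hone : ∀ μ : ProbabilityMeasure UnitAddCircle,
      (μ : Measure UnitAddCircle).map (fun x : UnitAddCircle => 1 • x) =
        (μ : Measure UnitAddCircle) := by
    intro μ
    simp only [one_smul]
    exact Measure.map_id
  have hinv : (κ : Measure UnitAddCircle).map (fun x : UnitAddCircle => p • x) =
      (κ : Measure UnitAddCircle) := by
    let κ' : ProbabilityMeasure UnitAddCircle :=
      ⟨(κ : Measure UnitAddCircle).map (fun x : UnitAddCircle => p • x),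
        Measure.isProbabilityMeasure_map hcont.measurable.aemeasurable⟩
    have h1 := hI 1 ⟨κ', hone κ'⟩ ⟨κ, hone κ⟩ (fun j => by
      show ∫ x, fourier (j : ℤ) x ∂((κ : Measure UnitAddCircle).map
        (fun x : UnitAddCircle => p • x)) = kapc κ j
      rw [integral_map hcont.measurable.aemeasurable (map_continuous _).aestronglyMeasurable,
        ← heq j]
      refine integral_congr_ae (Eventually.of_forall fun x => ?_)
      show (fourier (j : ℤ) (p • x) : ℂ) = fourier (((p * j : ℕ) : ℕ) : ℤ) x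
      rw [fourier_apply, fourier_apply]
      congr 2
      rw [← natCast_zsmul x p, smul_smul]
      congr 1
      push_cast
      ring)
    exact congrArg (fun ν : PP 1 => ((ν.1 : ProbabilityMeasure UnitAddCircle) :
      Measure UnitAddCircle)) h1
  refine ⟨⟨κ, hinv⟩, fun m n => ?_, fun m => ?_⟩
  · show ‖kapc κ m‖ ≤ _
    refine le_of_tendsto (hc m).norm (hU ((eventually_ge_atTop n).mono fun k hk => ?_))
    rw [hκ, norm_prod]
    obtain ⟨d, rfl⟩ := Nat.exists_eq_add_of_le hk
    induction d with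
    | zero => exact le_of_eq (by simp)
    | succ d ihd =>
      rw [← Nat.add_assoc, Finset.prod_range_succ]
      calc _ ≤ _ * 1 := mul_le_mul_of_nonneg_left (kap_ph_le s _ hs0 hs1)
            (Finset.prod_nonneg fun i _ => norm_nonneg _)
        _ ≤ _ := by
            rw [mul_one]
            exact ihd (Nat.le_add_right _ _)
  · show ‖kapc κ m - 1‖ ≤ _
    refine le_of_tendsto ((hc m).sub_const 1).norm (Eventually.of_forall fun k => ?_)
    rw [hκ]
    refine (kap_prod hp s hs0 hs1 m k).trans ?_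
    have h1 : (1 : ℝ) - (1 / 2) ^ k ≤ 1 := by
      have : (0 : ℝ) ≤ (1 / 2) ^ k := by positivity
      linarith
    have h2 : 2 * Real.pi ≤ 7 := by
      have := Real.pi_lt_d2
      linarith
    calc 2 * Real.pi * s * m * (1 - (1 / 2) ^ k) ≤ 2 * Real.pi * s * m * 1 :=
          mul_le_mul_of_nonneg_left h1 (by positivity)
      _ = (2 * Real.pi) * (m * s) := by ring
      _ ≤ 7 * (m * s) := mul_le_mul_of_nonneg_right h2 (by positivity)
      _ = 7 * m * s := by ring

end Pool.UCR
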